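import Pool.Agent.ZPK.StmtsR

/-!
Squad ZPK (MP_6e1a06_nt), THEOREM K: row RPX.
-/

set_option autoImplicit false

namespace Pool.Agent.ZPK.H79R

open Polynomial Pool.Agent.ZPT Pool.Agent.ZP3

noncomputable section

lemma norm_pp {p : ℕ} (hp : p.Prime) {K : Type} [NormedField K] [CharZero K] (hK : Ext p K) :
    ‖(p : K)‖ = (p : ℝ)⁻¹ := by
  have : Fact p.Prime := ⟨hp⟩
  have h := hK (p : ℚ)
  rw [padicNorm.padicNorm_p_of_prime] at h
  simpa using h

/-- Torsion modulo the maximal ideal. -/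
def Tor {K : Type} [NormedField K] (x : K) : Prop := ∃ M : ℕ, 1 ≤ M ∧ ‖x ^ M - 1‖ < 1

lemma one_mul_lt {K : Type} [NormedField K] [IsUltrametricDist K] {u v : K} (hu : ‖u - 1‖ < 1)
    (hv : ‖v - 1‖ < 1) : ‖u * v - 1‖ < 1 := by
  have hv1 : ‖v‖ ≤ 1 := by
    have h : v = (v - 1) + 1 := by ring
    rw [h]
    refine (IsUltrametricDist.norm_add_le_max _ _).trans (max_le hv.le ?_)
    rw [norm_one]
  have h : u * v - 1 = (u - 1) * v + (v - 1) := by ring
  rw [h]
  refine (IsUltrametricDist.norm_add_le_max _ _).trans_lt (max_lt ?_ hv)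
  rw [norm_mul]
  calc ‖u - 1‖ * ‖v‖ ≤ ‖u - 1‖ * 1 := mul_le_mul_of_nonneg_left hv1 (norm_nonneg _)
    _ < 1 := by rw [mul_one]; exact hu

lemma one_pow_lt {K : Type} [NormedField K] [IsUltrametricDist K] {u : K} (hu : ‖u - 1‖ < 1)
    (n : ℕ) : ‖u ^ n - 1‖ < 1 := by
  induction n with
  | zero => simp
  | succ n ih => rw [pow_succ]; exact one_mul_lt ih hu

lemma tor_mul {K : Type} [NormedField K] [IsUltrametricDist K] {x y : K} (hx : Tor x)
    (hy : Tor y) : Tor (x * y) := by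
  obtain ⟨M, hM, hx⟩ := hx
  obtain ⟨N, hN, hy⟩ := hy
  refine ⟨M * N, Nat.mul_pos hM hN, ?_⟩
  have h : (x * y) ^ (M * N) = (x ^ M) ^ N * (y ^ N) ^ M := by
    rw [mul_pow, ← pow_mul, ← pow_mul, mul_comm N M]
  rw [h]
  exact one_mul_lt (one_pow_lt hx N) (one_pow_lt hy M)

lemma tor_pow {K : Type} [NormedField K] [IsUltrametricDist K] {x : K} (hx : Tor x) (n : ℕ) :
    Tor (x ^ n) := by
  obtain ⟨M, hM, hx⟩ := hx
  refine ⟨M, hM, ?_⟩
  rw [← pow_mul, mul_comm, pow_mul]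
  exact one_pow_lt hx n

lemma tor_inv {K : Type} [NormedField K] [IsUltrametricDist K] {x : K} (hx : Tor x) :
    Tor x⁻¹ := by
  obtain ⟨M, hM, hx⟩ := hx
  refine ⟨M, hM, ?_⟩
  have h0 : x ^ M ≠ 0 := by
    intro h0
    rw [h0, zero_sub, norm_neg, norm_one] at hx
    exact lt_irrefl _ hx
  have h1 : ‖x ^ M‖ = 1 := by
    have h : x ^ M = 1 + (x ^ M - 1) := by ring
    rw [h]
    have := IsUltrametricDist.norm_add_eq_max_of_norm_ne_norm (x := (1 : K)) (y := x ^ M - 1)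
      (by rw [norm_one]; exact hx.ne')
    rw [this, norm_one, max_eq_left hx.le]
  have h2 : x⁻¹ ^ M - 1 = -((x ^ M - 1) / x ^ M) := by
    rw [inv_pow]
    field_simp
    ring
  rw [h2, norm_neg, norm_div, h1, div_one]
  exact hx

lemma tor_of_pow {K : Type} [NormedField K] {x : K} (n : ℕ) (hn : 1 ≤ n) (hx : Tor (x ^ n)) :
    Tor x := by
  obtain ⟨M, hM, hx⟩ := hx
  refine ⟨n * M, Nat.mul_pos hn hM, ?_⟩
  rw [pow_mul]
  exact hx

lemma tor_near {K : Type} [NormedField K] [IsUltrametricDist K] {x y : K} (hy : ‖y‖ = 1)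
    (hxy : ‖x - y‖ < 1) (h : Tor y) : Tor x := by
  have h0 : y ≠ 0 := by
    intro h0
    rw [h0, norm_zero] at hy
    exact zero_ne_one hy
  have h1 : ‖x / y - 1‖ < 1 := by
    have e : x / y - 1 = (x - y) / y := by field_simp
    rw [e, norm_div, hy, div_one]
    exact hxy
  have e : x = x / y * y := by field_simp
  rw [e]
  exact tor_mul ⟨1, le_rfl, by rw [pow_one]; exact h1⟩ h

lemma tor_ur {p : ℕ} (hp : p.Prime) {K : Type} [NormedField K] {a : K} (hu : Ur p a)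
    (ha : ‖a‖ = 1) : Tor a := by
  obtain ⟨-, F, hF, h⟩ := hu
  have hpF : 2 ≤ p ^ F := by
    calc 2 ≤ p := hp.two_le
      _ = p ^ 1 := (pow_one p).symm
      _ ≤ p ^ F := Nat.pow_le_pow_right hp.pos hF
  refine ⟨p ^ F - 1, by omega, ?_⟩
  have h0 : a ≠ 0 := by
    intro h0
    rw [h0, norm_zero] at ha
    exact zero_ne_one ha
  have e : a ^ (p ^ F) - a = a * (a ^ (p ^ F - 1) - 1) := by
    have e1 : a ^ (p ^ F) = a * a ^ (p ^ F - 1) := by
      rw [← pow_succ']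
      congr 1
      omega
    rw [e1]
    ring
  rw [e, norm_mul, ha, one_mul] at h
  exact h.trans_lt (inv_lt_one_of_one_lt₀ (by exact_mod_cast hp.one_lt))

theorem rpx (_urr : URRStmt) (lgb : LgbStmt) (unv : UnvStmt) (rla : RlaStmt) (rsm : RsmStmt) :
    RpxStmt := by
  intro U hU p hp h5 K _ _ _ _ hK Log hLog L hL e e' A A' g g' hcd hcd' he t q q' ht0 hla hsm
    hq hq' hdep
  have hpn := norm_pp hp hK
  have hp0 : (0 : ℝ) < p := by exact_mod_cast hp.pos
  have hpinv : (p : ℝ)⁻¹ < 1 := inv_lt_one_of_one_lt₀ (by exact_mod_cast hp.one_lt)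
  have hpK : (p : K) ≠ 0 := by exact_mod_cast hp.ne_zero
  have ht1 : ‖t‖ < 1 := by
    by_contra h
    rw [not_lt] at h
    have h1 : 1 ≤ ‖t‖ ^ e := one_le_pow₀ h
    have h2 : ‖t‖ ^ e < (p : ℝ)⁻¹ := hla
    linarith
  obtain ⟨hqn, hqF⟩ := rla U hU p hp h5 K hK L e A g hcd he t q ht0 ht1 hla hq
  obtain ⟨hqn', hqN, -⟩ := rsm U hU p hp h5 K hK L e' A' g' hcd' t q' ht0 ht1 hsm hq'
  obtain ⟨lg1, lg2, lg3, -, -, -, -⟩ := lgb p hp h5 K hK Log hLog
  obtain ⟨α, β, hα, hβ, hd⟩ := hdep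
  have hA0 : ‖A 0‖ = 1 := hcd.A0 he
  have hA0' : A 0 ≠ 0 := by
    intro h0
    rw [h0, norm_zero] at hA0
    exact zero_ne_one hA0
  have htK : t ≠ 0 := norm_pos_iff.1 ht0
  have hq0 : q ≠ 0 := norm_pos_iff.1 hq.q0
  have hq0' : q' ≠ 0 := norm_pos_iff.1 hq'.q0
  set F : K := t ^ e * q⁻¹ / A 0 with hF
  set nu : K := (p : K) * q'⁻¹ with hnu
  have hF0 : F ≠ 0 := div_ne_zero (mul_ne_zero (pow_ne_zero _ htK) (inv_ne_zero hq0)) hA0'
  have hnu0 : nu ≠ 0 := mul_ne_zero hpK (inv_ne_zero hq0')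
  have eqq : t ^ e / (A 0 * F) = q := by
    rw [hF]
    field_simp
  have eqq' : (p : K) / nu = q' := by
    rw [hnu]
    field_simp
  have hαK : (α : K) ≠ 0 := by exact_mod_cast (by omega : α ≠ 0)
  have heK : (e : K) ≠ 0 := by exact_mod_cast (by omega : e ≠ 0)
  have hαQ : (α : ℚ) ≠ 0 := by exact_mod_cast (by omega : α ≠ 0)
  have heQ : (e : ℚ) ≠ 0 := by exact_mod_cast (by omega : e ≠ 0)
  -- the norm relation
  have hnorm : ‖t‖ ^ (e * α) = ((p : ℝ)⁻¹) ^ β := by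
    have h := congrArg norm hd
    rw [norm_pow, norm_pow, hqn, hqn', ← pow_mul] at h
    exact h
  have hs0 : (0 : ℚ) < (β : ℚ) / ((e : ℚ) * α) := by
    have h1 : (0 : ℚ) < β := by exact_mod_cast hβ
    have h2 : (0 : ℚ) < e := by exact_mod_cast he
    have h3 : (0 : ℚ) < α := by exact_mod_cast hα
    positivity
  have hexp : ∀ a b : ℕ, (b : ℚ) = (β : ℚ) / ((e : ℚ) * α) * a → b * (e * α) = β * a := by
    intro a b h
    have h1 : (b : ℚ) * (e * α) = β * a := by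
      rw [h]
      field_simp
    exact_mod_cast h1
  have hrt : ∀ a b : ℕ, 1 ≤ a → (b : ℚ) = (β : ℚ) / ((e : ℚ) * α) * a →
      ∃ ζ : K, Ro ζ ∧ q ^ a = ζ * q' ^ (e * b) := by
    intro a b ha hb
    have h1 := hexp a b hb
    refine ⟨q ^ a / q' ^ (e * b), ⟨α, hα, ?_⟩, ?_⟩
    · rw [div_pow, ← pow_mul, ← pow_mul]
      have h2 : q ^ (a * α) = q' ^ (e * b * α) := by
        calc q ^ (a * α) = (q ^ α) ^ a := by rw [← pow_mul, mul_comm]
          _ = (q' ^ β) ^ a := by rw [hd]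
          _ = q' ^ (β * a) := by rw [← pow_mul]
          _ = q' ^ (e * b * α) := by rw [← h1]; congr 1; ring
      rw [h2, div_self (pow_ne_zero _ hq0')]
    · field_simp
  refine ⟨(β : ℚ) / ((e : ℚ) * α), hs0, ?_, ?_, ?_, ?_⟩
  · -- tn
    have hea : e * α ≠ 0 := Nat.mul_ne_zero (by omega) (by omega)
    have hpos : (0 : ℝ) ≤ (p : ℝ) ^ (-(((β : ℚ) / ((e : ℚ) * α) : ℚ) : ℝ)) :=
      Real.rpow_nonneg hp0.le _
    rw [← pow_left_inj₀ (norm_nonneg _) hpos hea, hnorm, ← Real.rpow_natCast (_ ^ _),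
      ← Real.rpow_mul hp0.le, inv_pow, ← Real.rpow_natCast, ← Real.rpow_neg hp0.le]
    congr 1
    have h1 : (e : ℝ) ≠ 0 := by exact_mod_cast (by omega : e ≠ 0)
    have h2 : (α : ℝ) ≠ 0 := by exact_mod_cast (by omega : α ≠ 0)
    push_cast
    field_simp
  · -- rt
    intro a b ha hb
    rw [eqq, eqq']
    exact hrt a b ha hb
  · -- lg
    have h1 : (α : K) * Log q = β * Log q' := by
      have ha := lg1.2 q (α : ℤ) hq0
      have hb := lg1.2 q' (β : ℤ) hq0'
      rw [zpow_natCast] at ha hb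
      rw [hd] at ha
      rw [ha] at hb
      exact_mod_cast hb
    have h2 : Log q = e * Log t - Log (A 0) - Log F := by
      have ha := lg2 (t ^ e) (A 0 * F) (pow_ne_zero _ htK) (mul_ne_zero hA0' hF0)
      have hb := lg1.2 t (e : ℤ) htK
      rw [zpow_natCast] at hb
      rw [eqq, hLog.mul _ _ hA0' hF0, hb] at ha
      rw [ha]
      push_cast
      ring
    have h3 : Log q' = -Log nu := by
      have ha := lg2 (p : K) nu hpK hnu0
      rw [eqq', hLog.pp, zero_sub] at ha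
      exact ha
    rw [h2, h3] at h1
    have h4 : (((β : ℚ) / ((e : ℚ) * α) : ℚ) : K) = (β : K) / ((e : K) * α) := by
      push_cast
      ring
    rw [h4]
    have h5 : (e : K) * Log t - Log (A 0) - Log F =
        (α : K)⁻¹ * ((α : K) * (e * Log t - Log (A 0) - Log F)) := by
      field_simp
    rw [h5, h1]
    field_simp
  · -- tc
    intro a b ha hb
    obtain ⟨ζ, hζ, hz⟩ := hrt a b ha hb
    have hTζ : Tor ζ := by
      obtain ⟨M, hM, h⟩ := hζ
      exact ⟨M, hM, by rw [h, sub_self, norm_zero]; exact zero_lt_one⟩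
    have hTa : Tor (A 0) := tor_ur hp ((unv p hp K hK L hL).1 _ (hcd.An 0) hA0.le) hA0
    have hTF : Tor F := by
      refine ⟨1, le_rfl, ?_⟩
      rw [pow_one]
      have h1 := hqF 1 le_rfl
      rw [Finset.sum_range_one, pow_zero, mul_one, div_self hA0', pow_one] at h1
      have h2 : ‖g / A 0 * (t ^ e / (p : K))‖ < 1 := by
        rw [norm_mul, norm_div, hcd.g1, hA0, div_one, one_mul, norm_div, norm_pow, hpn,
          div_inv_eq_mul]
        have h3 : ‖t‖ ^ e < (p : ℝ)⁻¹ := hla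
        calc ‖t‖ ^ e * p < (p : ℝ)⁻¹ * p := mul_lt_mul_of_pos_right h3 hp0
          _ = 1 := inv_mul_cancel₀ hp0.ne'
      have h4 : F - 1 = (F - (1 + g / A 0 * (t ^ e / (p : K)))) + g / A 0 * (t ^ e / (p : K)) := by
        ring
      rw [h4]
      refine (IsUltrametricDist.norm_add_le_max _ _).trans_lt (max_lt (h1.trans_lt ?_) h2)
      refine max_lt ht1 ?_
      have h3 : ‖t‖ ^ e < (p : ℝ)⁻¹ := hla
      exact h3.trans hpinv
    have hTn : Tor nu := by
      refine tor_near hcd'.g1 ?_ (tor_ur hp ((unv p hp K hK L hL).1 _ hcd'.gL hcd'.g1.le) hcd'.g1)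
      have h1 : ‖(p : K) / t ^ e'‖ < 1 := by
        rw [norm_div, norm_pow, hpn, div_lt_one (pow_pos ht0 _)]
        exact hsm
      have h2 : nu - g' = (nu - (g' + A' 0 * ((p : K) / t ^ e'))) + A' 0 * ((p : K) / t ^ e') := by
        ring
      rw [h2]
      refine (IsUltrametricDist.norm_add_le_max _ _).trans_lt (max_lt (hqN.trans_lt ?_) ?_)
      · refine max_lt hpinv ?_
        calc ‖(p : K) / t ^ e'‖ * ‖t‖ ≤ 1 * ‖t‖ :=
              mul_le_mul_of_nonneg_right h1.le (norm_nonneg _)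
          _ < 1 := by rw [one_mul]; exact ht1
      · rw [norm_mul]
        calc ‖A' 0‖ * ‖(p : K) / t ^ e'‖ ≤ 1 * ‖(p : K) / t ^ e'‖ :=
              mul_le_mul_of_nonneg_right (hcd'.An1 0) (norm_nonneg _)
          _ < 1 := by rw [one_mul]; exact h1
    have hX : (t ^ a / (p : K) ^ b) ^ e = ζ * (A 0 * F) ^ a * (nu ^ (e * b))⁻¹ := by
      have h1 : t ^ e = q * (A 0 * F) := by
        rw [← eqq]
        field_simp
      have h2 : (p : K) = q' * nu := by
        rw [← eqq']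
        field_simp
      rw [div_pow, ← pow_mul, ← pow_mul, mul_comm a e, pow_mul t e a, h1, mul_pow, hz, h2,
        mul_pow (q') nu, mul_comm b e]
      have h3 : q' ^ (e * b) ≠ 0 := pow_ne_zero _ hq0'
      have h4 : nu ^ (e * b) ≠ 0 := pow_ne_zero _ hnu0
      field_simp
    refine tor_of_pow e he ?_
    rw [hX]
    exact tor_mul (tor_mul hTζ (tor_pow (tor_mul hTa hTF) a)) (tor_inv (tor_pow hTn _))

end

end Pool.Agent.ZPK.H79R
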