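import Pool.Agent.Helper79_ZPK.TT0

/-!
Squad ZPK (MP_6e1a06_nt), THEOREM K: row TTL.
-/

set_option autoImplicit false

namespace Pool.Agent.ZPK.H79

open Polynomial Pool.Agent.ZPT Pool.Agent.ZP3

noncomputable section

lemma norm_pp {p : ℕ} (hp : p.Prime) {K : Type} [NormedField K] [CharZero K] (hK : Ext p K) :
    ‖(p : K)‖ = (p : ℝ)⁻¹ := by
  have : Fact p.Prime := ⟨hp⟩
  have h := hK (p : ℚ)
  rw [padicNorm.padicNorm_p_of_prime] at h
  simpa using h

lemma big_p {p E : ℕ} (hE : 1 ≤ E) (h : 1000 * (E + 1) ^ 2 < p) : 4000 < p := by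
  have h1 : 2 ≤ E + 1 := by omega
  have h2 : 2 ^ 2 ≤ (E + 1) ^ 2 := Nat.pow_le_pow_left h1 2
  omega

lemma dep_symm {K : Type} [NormedField K] {x y : K} (h : Dep x y) : Dep y x := by
  obtain ⟨a, b, ha, hb, hh⟩ := h
  exact ⟨b, a, hb, ha, hh.symm⟩

theorem ttl (urr : URRStmt) (thb : THBStmt) (unv : UnvStmt) (num : NumStmt) (tpl : TplStmt)
    (gtt : GttStmt) : TtlStmt := by
  intro U hU p E hp hE hpE K _ _ _ _ _ hK Log hLog L hL n e A g hcd heE hgen e₀ i j k l hij hkl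
    hil hik hjl he₀ hm1 hm2 h3 t q ht0 hla hat hd1 hd2
  by_contra hcon
  rw [not_lt] at hcon
  have hp4 := big_p hE hpE
  have hp0 : (0 : ℝ) < p := by exact_mod_cast hp.pos
  have hpn := norm_pp hp hK
  obtain ⟨-, hth0, hth1, -, -⟩ := thb p hp (by omega)
  obtain ⟨-, hrh0, hrh1, hnum⟩ := num p E hp hE hpE
  have hpinv : (p : ℝ)⁻¹ < 1 := inv_lt_one_of_one_lt₀ (by exact_mod_cast hp.one_lt)
  have ht1 : ‖t‖ < 1 := by
    by_contra h
    rw [not_lt] at h
    have h1 : 1 ≤ ‖t‖ ^ e₀ := one_le_pow₀ h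
    have h2 : ‖t‖ ^ e₀ < (p : ℝ)⁻¹ := hla
    linarith
  have he₀E : e₀ ≤ E := by
    have := heE i
    have h1 : e₀ ≤ e i := by rw [hm1]; exact min_le_left _ _
    omega
  have htr : ‖t‖ ≤ rh p E := (hnum ‖t‖ e₀ ht0 ht1 he₀ he₀E).1 hla
  have hz1 : ‖t ^ e₀ / (p : K)‖ < 1 := by
    rw [norm_div, norm_pow, hpn, div_inv_eq_mul]
    have h2 : ‖t‖ ^ e₀ < (p : ℝ)⁻¹ := hla
    calc ‖t‖ ^ e₀ * p < (p : ℝ)⁻¹ * p := mul_lt_mul_of_pos_right h2 hp0
      _ = 1 := inv_mul_cancel₀ hp0.ne'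
  have hpair : ∀ x y : Fin n, e₀ = e x → e x ≤ e y → At p U (e x) (A x) (g x) t (q x) →
      At p U (e y) (A y) (g y) t (q y) → Dep (q x) (q y) →
      Pn2 p (t ^ e₀ / (p : K)) (rh p E) (lL e₀ (e x) (A x) (g x)) (lL e₀ (e y) (A y) (g y)) := by
    intro x y hx hxy hax hay hd
    obtain ⟨h, hh, hs⟩ := tpl U hU p E hp hE hpE K hK L hL (e x) (e y) (A x) (A y) (g x) (g y)
      (hcd x) (hcd y) (by omega) hxy (heE y)
    obtain ⟨ζ, hζ, hn, -⟩ := hs t (q x) (q y) ht0 (by rw [← hx]; exact hla) hax hay hd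
    refine ⟨h, ζ, hh, hζ, ?_⟩
    rw [hx]
    exact hn.trans htr
  have hpair2 : ∀ x y : Fin n, e₀ = min (e x) (e y) → At p U (e x) (A x) (g x) t (q x) →
      At p U (e y) (A y) (g y) t (q y) → Dep (q x) (q y) →
      Pn2 p (t ^ e₀ / (p : K)) (rh p E) (lL e₀ (e x) (A x) (g x)) (lL e₀ (e y) (A y) (g y)) := by
    intro x y hm hax hay hd
    rcases le_total (e x) (e y) with hxy | hxy
    · exact hpair x y (by rw [hm, min_eq_left hxy]) hxy hax hay hd
    · exact (hpair y x (by rw [hm, min_eq_right hxy]) hxy hay hax (dep_symm hd)).symm hp hK urr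
  have hei : e i = e₀ ∨ e j = e₀ := by
    rcases le_total (e i) (e j) with hxy | hxy
    · left; rw [hm1, min_eq_left hxy]
    · right; rw [hm1, min_eq_right hxy]
  have hek : e k = e₀ ∨ e l = e₀ := by
    rcases le_total (e k) (e l) with hxy | hxy
    · left; rw [hm2, min_eq_left hxy]
    · right; rw [hm2, min_eq_right hxy]
  have hlam : ∀ u, e u = e₀ → ‖g u / A u 0‖ = 1 := by
    intro u hu
    rw [norm_div, (hcd u).g1, (hcd u).A0 (by omega), div_one]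
  refine core gtt hp (by omega) hK e e₀ (fun u => g u / A u 0)
    (fun u => lL e₀ (e u) (A u) (g u)) (hgen.infty e₀ he₀) (fun u => rfl) hlam ?_ i j k l hij hkl
    hil hik hjl hei hek h3 (t ^ e₀ / (p : K)) (rh p E) ?_ hcon hz1
    (hpair2 i j hm1 (hat i (by simp)) (hat j (by simp)) hd1)
    (hpair2 k l hm2 (hat k (by simp)) (hat l (by simp)) hd2)
  · intro u
    show Ur p (if e u = e₀ then g u / A u 0 else 0)
    split_ifs with hu
    · exact (unv p hp K hK L hL).1 _ (L.div_mem (hcd u).gL ((hcd u).An 0)) (hlam u hu).le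
    · exact (unv p hp K hK L hL).1 _ L.zero_mem (by rw [norm_zero]; exact zero_le_one)
  · exact hrh1.trans_le (pow_le_pow_of_le_one hth0.le hth1.le (by norm_num))

end

end Pool.Agent.ZPK.H79
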