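import Pool.Agent.Helper79_ZPK.TTL

/-!
Squad ZPK (MP_6e1a06_nt), THEOREM K: row TTS.
-/

set_option autoImplicit false

namespace Pool.Agent.ZPK.H79

open Polynomial Pool.Agent.ZPT Pool.Agent.ZP3

noncomputable section

theorem tts (urr : URRStmt) (thb : THBStmt) (unv : UnvStmt) (num : NumStmt) (tps : TpsStmt)
    (gtt : GttStmt) : TtsStmt := by
  intro U hU p E hp hE hpE K _ _ _ _ _ hK Log hLog L hL n e A g hcd heE hgen e₀ i j k l hij hkl
    hil hik hjl he₀ hm1 hm2 h3 t q ht0 ht1 hsm hat hd1 hd2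
  by_contra hcon
  rw [not_lt] at hcon
  have hp4 := big_p hE hpE
  have hp0 : (0 : ℝ) < p := by exact_mod_cast hp.pos
  have hpn := norm_pp hp hK
  obtain ⟨-, hth0, hth1, -, -⟩ := thb p hp (by omega)
  obtain ⟨-, hrh0, hrh1, hnum⟩ := num p E hp hE hpE
  have he₀E : e₀ ≤ E := by
    rw [hm1]
    exact max_le (heE i) (heE j)
  have hzn : ‖(p : K) / t ^ e₀‖ = (p : ℝ)⁻¹ / ‖t‖ ^ e₀ := by
    rw [norm_div, norm_pow, hpn]
  have hz1 : ‖(p : K) / t ^ e₀‖ < 1 := by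
    rw [hzn, div_lt_one (pow_pos ht0 _)]
    exact hsm
  have htr : ‖t‖ ≤ rh p E := by
    refine ((hnum ‖t‖ e₀ ht0 ht1 he₀ he₀E).2.2 ?_).1
    rw [← hzn]
    refine le_trans ?_ hcon
    calc th p ^ 2 ≤ th p ^ 1 := pow_le_pow_of_le_one hth0.le hth1.le (by norm_num)
      _ = th p := pow_one _
  have hpair2 : ∀ x y : Fin n, e₀ = max (e x) (e y) → At p U (e x) (A x) (g x) t (q x) →
      At p U (e y) (A y) (g y) t (q y) → Dep (q x) (q y) →
      Pn2 p ((p : K) / t ^ e₀) (rh p E) (lS e₀ (e x) (A x) (g x)) (lS e₀ (e y) (A y) (g y)) := by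
    intro x y hm hax hay hd
    obtain ⟨ζ, hζ, hn, -⟩ := tps U hU p hp (by omega) K hK L e₀ (e x) (e y) (A x) (A y) (g x) (g y)
      (hcd x) (hcd y) hm he₀ t (q x) (q y) ht0 ht1 hsm hax hay hd
    have hg : ‖g x / g y‖ = 1 := by rw [norm_div, (hcd x).g1, (hcd y).g1, div_one]
    refine ⟨g x / g y, ζ, ⟨(unv p hp K hK L hL).1 _ (L.div_mem (hcd x).gL (hcd y).gL) hg.le, hg⟩,
      hζ, hn.trans ?_⟩
    calc ‖t‖ * ‖(p : K) / t ^ e₀‖ ≤ ‖t‖ * 1 :=
          mul_le_mul_of_nonneg_left hz1.le (norm_nonneg _)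
      _ = ‖t‖ := mul_one _
      _ ≤ rh p E := htr
  have hei : e i = e₀ ∨ e j = e₀ := by
    rcases le_total (e i) (e j) with hxy | hxy
    · right; rw [hm1, max_eq_right hxy]
    · left; rw [hm1, max_eq_left hxy]
  have hek : e k = e₀ ∨ e l = e₀ := by
    rcases le_total (e k) (e l) with hxy | hxy
    · right; rw [hm2, max_eq_right hxy]
    · left; rw [hm2, max_eq_left hxy]
  have hlam : ∀ u, e u = e₀ → ‖A u 0 / g u‖ = 1 := by
    intro u hu
    rw [norm_div, (hcd u).g1, (hcd u).A0 (by omega), div_one]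
  refine core gtt hp (by omega) hK e e₀ (fun u => A u 0 / g u)
    (fun u => lS e₀ (e u) (A u) (g u)) (hgen.zero e₀ he₀) (fun u => rfl) hlam ?_ i j k l hij hkl
    hil hik hjl hei hek h3 ((p : K) / t ^ e₀) (rh p E) ?_ hcon hz1
    (hpair2 i j hm1 (hat i (by simp)) (hat j (by simp)) hd1)
    (hpair2 k l hm2 (hat k (by simp)) (hat l (by simp)) hd2)
  · intro u
    show Ur p (if e u = e₀ then A u 0 / g u else 0)
    split_ifs with hu
    · exact (unv p hp K hK L hL).1 _ (L.div_mem ((hcd u).An 0) (hcd u).gL) (hlam u hu).le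
    · exact (unv p hp K hK L hL).1 _ L.zero_mem (by rw [norm_zero]; exact zero_le_one)
  · exact hrh1.trans_le (pow_le_pow_of_le_one hth0.le hth1.le (by norm_num))

end

end Pool.Agent.ZPK.H79
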