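import Pool.Agent.Helper51_ZP3.Asm
import Pool.Agent.Helper66_ZPK.LOG
import Pool.Agent.Helper27_ZPK.LGB
import Pool.Agent.Helper81_ZPK.FIN
import Pool.Agent.Helper95_ZPK.GLA
import Pool.Agent.Helper41_ZPK.GLB
import Pool.Agent.Helper78_ZPK.GPS
import Pool.Agent.Helper28_ZPK.GTP
import Pool.Agent.Helper26_ZPK.GTF
import Pool.Agent.Helper51_ZPK.GTI
import Pool.Agent.Helper44_ZPK.GTT
import Pool.Agent.Helper67_ZPK.XDP
import Pool.Agent.Helper25_ZPK.XNF
import Pool.Agent.Helper33_ZPK.XWI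
import Pool.Agent.Helper10_ZPK.XZE
import Pool.Agent.Helper7_ZPK.XLO
import Pool.Agent.Helper95_ZPK.XRB
import Pool.Agent.Helper81_ZPK.XRA
import Pool.Agent.Helper28_ZPK.INT
import Pool.Agent.Helper80_ZPK.UNF
import Pool.Agent.Helper92_ZPK.PUO
import Pool.Agent.Helper49_ZPK.SIM
import Pool.Agent.Helper64_ZPK.LRG
import Pool.Agent.Helper66_ZPK.DIS
import Pool.Agent.Helper85_ZPK.BLV
import Pool.Agent.Helper16_ZPK.FLV
import Pool.Agent.Helper49_ZPK.FNA
import Pool.Agent.Helper34_ZPK.GEH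
import Pool.Agent.Helper33_ZPK.UUQ
import Pool.Agent.Helper66_ZPK.BIG
import Pool.Agent.Helper71_ZPK.LOA
import Pool.Agent.Helper28_ZPK.ZSM
import Pool.Agent.Helper10_ZPK.ZLB
import Pool.Agent.Helper2_ZPK.ZRS
import Pool.Agent.Helper72_ZPK.NSP
import Pool.Agent.Helper21_ZPK.SPT
import Pool.Agent.Helper95_ZPK.PND
import Pool.Agent.Helper26_ZPK.EMB
import Pool.Agent.Helper80_ZPK.CTA
import Pool.Agent.Helper16_ZPK.CTB
import Pool.Agent.Helper25_ZPK.DNK
import Pool.Agent.Helper67_ZPK.GXA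
import Pool.Agent.Helper10_ZPK.CDI
import Pool.Agent.Helper68_ZPK.CFA
import Pool.Agent.Helper16_ZPK.CFB
import Pool.Agent.Helper48_ZPK.CNX
import Pool.Agent.Helper77_ZPK.CNK
import Pool.Agent.Helper7_ZPK.TK
import Pool.Agent.Helper17_ZPK.LWP
import Pool.Agent.Helper44_ZPK.PRT
import Pool.Agent.Helper43_ZPK.SYA
import Pool.Agent.Helper48_ZPK.TPS
import Pool.Agent.Helper59_ZPK.PBL
import Pool.Agent.Helper71_ZPK.RTL
import Pool.Agent.Helper19_ZPK.RTS
import Pool.Agent.Helper75_ZPK.LNC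
import Pool.Agent.Helper30_ZPK.TEI
import Pool.Agent.Helper43_ZPK.SYB
import Pool.Agent.Helper79_ZPK.RPX
import Pool.Agent.Helper66_ZPK.LOW
import Pool.Agent.Helper47_ZPK.TPL
import Pool.Agent.Helper49_ZPK.QVI
import Pool.Agent.Helper45_ZPK.LGR
import Pool.Agent.Helper75_ZPK.UNV
import Pool.Agent.Helper41_ZPK.GNU
import Pool.Agent.Helper66_ZPK.NUM
import Pool.Agent.Helper72_ZPK.RLA
import Pool.Agent.Helper51_ZPK.RSM
import Pool.Agent.Helper10_ZPK.RNL
import Pool.Agent.Helper27_ZPK.RNS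
import Pool.Agent.Helper95_ZPK.LRX
import Pool.Agent.Helper38_ZPK.UNC
import Pool.Agent.Helper43_ZPK.LGN
import Pool.Agent.Helper23_ZPK.BIN
import Pool.Agent.Helper37_ZPK.CRI
import Pool.Agent.Helper48_ZPK.ARL
import Pool.Agent.Helper78_ZPK.ARU
import Pool.Agent.Helper97_ZPK.LGL
import Pool.Agent.Helper37_ZPK.KPS
import Pool.Agent.Helper81_ZPK.THN
import Pool.Agent.Helper89_ZPK.MAI
import Pool.Agent.Helper59_ZPK.LWR
import Pool.Agent.Helper72_ZPK.LWA
import Pool.Agent.Helper10_ZPK.UPE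
import Pool.Agent.Helper92_ZPK.UPA
import Pool.Agent.Helper78_ZPK.UPF
import Pool.Agent.Helper72_ZPK.PLG
import Pool.Agent.Helper45_ZPK.SYS
import Pool.Agent.Helper71_ZPK.NRM
import Pool.Agent.Helper87_ZPK.MIS
import Pool.Agent.Helper33_ZPK.UPP
import Pool.Agent.Helper77_ZPK.INA
import Pool.Agent.Helper40_ZPK.INF
import Pool.Agent.Helper26_ZPK.RRR
import Pool.Agent.Helper72_ZPK.PBS
import Pool.Agent.Helper79_ZPK.TTL
import Pool.Agent.Helper79_ZPK.TTS
import Pool.Agent.Helper19_ZPK.XXF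
import Pool.Agent.Helper19_ZPK.LCR
import Pool.Agent.Helper81_ZPK.CFG
import Pool.Agent.Helper68_ZPK.CGQ
import Pool.Agent.Helper68_ZPK.CNP
import Pool.Agent.Helper9_ZPK.PEM

/-!
Squad ZPK (MP_6e1a06_nt), THEOREM K: assembly of all rows.
-/

set_option autoImplicit false

namespace Pool.Agent.ZPK.H79

open Pool.Agent.ZPT Pool.Agent.ZP3

/-- THEOREM K. -/
theorem asm : TkStmt := by
  -- ZPT
  have je := ZPT.H56.je
  have ji := ZPT.H25.ji je
  have js := ZPT.H77.js je
  have hf := ZPT.H32.hf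
  have hu := ZPT.H32.hu
  have hi := ZPT.H3.hi ji hf hu
  have mf := ZPT.H39.mf je
  have mp := ZPT.H76.mp je hi
  have mc := ZPT.H41.mc mf mp
  have ic := ZPT.H25.ic ji hf
  have ib := ZPT.H25.ib js
  have is_ := ZPT.H25.is_
  have ev := ZPT.H84.ev
  have ue := ZPT.H3U.ue ev
  have ui := ZPT.H70.ui
  have ux := ZPT.H62.ux je ev ue ui
  have uq := ZPT.H88.uq
  have hs' := ZPT.H51.hs ev
  have hc := ZPT.H18.hc
  have sq := ZPT.H84.sq
  have ms := ZPT.H18.ms ev uq hs' hc sq mc
  have mk := ZPT.H18.mk ev hs' ms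
  have nw := ZPT.H49.nw
  have ps := ZPT.H62.ps ux hc mk nw
  have eh := ZPT.H88.eh
  have tb := ZPT.H88.tb
  have ti := ZPT.H88.ti
  have ts := ZPT.H88.ts
  have ik := ZPT.H92.ik ic eh tb ts ZPT.H62.tp
  have nn := ZPT.H41.nn tb ZPT.H49.rv ZPT.H88.fo
  have la := ZPT.H25.la
  have ca := ZPT.H25.ca la
  have gr := ZPT.H88.gr
  have cf := ZPT.H49.cf
  have pf := ZPT.H41.pf
  have tq := ZPT.H62.tq
  have kx := ZPT.H15.kx
  -- ZP3
  have urr := ZP3.H60.urr
  have urt := ZP3.H56.urt
  have ura := ZP3.H56.ura gr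
  have fgs := ZP3.H23.fgs
  have puf := ZP3.H19.puf ZP3.H21.hen
  have pum := ZP3.H65.pum puf fgs
  have evf := ZP3.H90.evf
  have pln := ZP3.H65.pln la
  have spl := ZP3.H82.spl
  have wtm := ZP3.H33.wtm
  have wwn := ZP3.H33.wwn
  have rou := ZP3.H48.rou spl wtm wwn
  have thb := ZP3.H32.thb
  have zkl := ZP3.H48.zkl wwn thb
  have tat := ZP3.H39.tat
  have mth := ZP3.H39.mth
  have dep := ZP3.H67.dep
  have gnr := ZP3.H20.gnr
  -- blocks L, G
  have lgb := H27.lgb thb urr
  have lgr := H45.lgr thb lgb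
  have unv := H75.unv urr
  have fin := H81.fin ZPT.H49.rv
  have gnu := H41.gnu
  have gla := H95.gla zkl thb lgb
  have glb := H41.glb thb wwn zkl lgb
  have gps := H78.gps thb wwn lgb gla glb
  have gtp := H28.gtp urr thb spl wtm wwn rou
  have gtf := H26.gtf urr thb wwn lgb gps gtp
  have gti := H51.gti urr thb wwn lgb gps gtp
  have gtt := H44.gtt thb gtp
  -- block X
  have xnf := H25.xnf tat mth urt urr
  have xwi := H33.xwi urr urt thb spl wtm wwn rou
  have xze := H10.xze urr thb gtf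
  have xlo := H7.xlo urr
  have xra := H81.xra H95.xrb urr urt gnr wtm
  have xxf := H19.xxf H67.xdp xnf xwi xze xlo xra dep fin gnr wtm urr thb H66.log
  have lcr := H19.lcr xxf H34.geh
  -- block R
  have num := H66.num
  have rla := H72.rla tat
  have rsm := H51.rsm tat
  have rnl := H10.rnl rla
  have rns := H27.rns rsm
  have rpx' := H79R.rpx urr lgb unv rla rsm
  have lrx := H95.lrx lgb lgr
  have unc := H38.unc urr urt thb spl wtm wwn unv
  have lgn := H43.lgn
  have bin := H23.bin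
  have cri := H37.cri thb wwn lgr
  have arl := H48.arl
  have aru := H78.aru
  have lgl := H97.lgl urr lgb unv
  have kps := H37.kps
  have thn := H81.thn urr thb lgb unv rsm rns
  have mai := H89.mai thb lgb num rla
  have lwr := H59.lwr urr thb lgb
  have lwa := H72.lwa thb lgb lgn cri gps arl
  have lwp' := H17.lwp thb lgb lrx unc bin
  have low' := H66.low urr thb lgb unv num rnl rpx' lgl thn lwr lwa lwp'
  have upe := H10.upe urr thb lgb
  have upa := H92.upa thb lgb lgn cri gps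
  have upf := H78.upf thb aru
  have plg := H72.plg num H44.prt
  have tei' := H30.tei urr thb lgb lrx
  have sya' := H43.sya urr urt thb wtm rou mth lgb unv num tei' lgl
  have syb' := H43.syb urr urt thb wtm mth lgb unv num tei' lgl
  have sys := H45.sys thb num bin sya' syb'
  have nrm := H71.nrm unv unc
  have mis := H87.mis thb num plg sys nrm
  have upp := H33.upp urr thb mth lgb unv num rla rns rpx' lgl mai upe upa upf mis
  have ina := H77.INA.ina
  have inf := H40.inf gnu fin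
  have rrr := H26.rrr thb num rnl rsm rns rpx' lgl kps thn mai low' upp ina inf
  -- block T
  have tpl' := H47.tpl urr urt mth unv num rnl
  have tps' := H48.tps rns
  have pbl' := H59.pbl thb num tpl' fin
  have pbs := H72.pbs thb rsm tps' fin
  have qvi' := H49.qvi urr urt thb mth unv num rnl rsm
  have qvf' := H49.qvf urr urt thb mth unv num rla rns
  have rtl' := H71.rtl urr thb unv num pbl' tpl' qvi' gti
  have rts' := H19.rts urr thb unv num pbs tps' qvf' gtf
  have ttl := H79.ttl urr thb unv num tpl' gtt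
  have tts := H79.tts urr thb unv num tps' gtt
  have lnc' : LncStmt := H75.lnc thb num pbl' pbs rtl' rts' ttl tts rrr
  -- block A
  have unf := H80.unf H28.int_ ura
  have puo := H92.puo pum fgs evf ura urr
  have sim := H49.sim pln puo fgs ura evf
  have lrg := H64.lrg ura evf
  have dis := H66.dis
  have blv := H85.blv sim unf lrg dis nn ik is_ ti ts tq eh
  have flv := H16.flv ic ib cf ca pf
  have fna := H49.fna kx ps blv flv
  -- local theorem
  have big := H66.big ura urr
  have loa := H71.loa big lcr lnc'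
  -- block D
  have zlb := H10.zlb H28.zsm
  have nsp := H72.nsp zlb H2.zrs
  have pnd := H95.pnd nsp H21.spt
  have emb := H26.emb
  have cta := H80.cta
  have ctb := H16.ctb
  have cfg := H81.cfg cta
  have cgq := H68.cgq ctb urr thb lgb
  have cdi := H10.cdi cta
  have cfa := H68.cfa cfg
  have cfb := H16.cfb cfg
  have cnx := H48.cnx cta H67.gxa
  have cnk := H77.cnk cdi cfa cfb cnx cgq
  have cnp := H68.cnp cnk big lrg unf H33.uuq H66.log ura urr kx
  have pem := H9.pem pnd emb ura kx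
  exact H7.tk fna loa cnp pem H25.dnk

end Pool.Agent.ZPK.H79
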