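import Pool.Agent.ZPK.StmtsT

/-!
Squad ZPK (MP_6e1a06_nt), THEOREM K: common part of TTL and TTS.
-/

set_option autoImplicit false

namespace Pool.Agent.ZPK.H79

open Polynomial Pool.Agent.ZPT Pool.Agent.ZP3

noncomputable section

/-- Indicator vector. -/
def xv {n : ℕ} (e : Fin n → ℕ) (d : ℕ) (u : Fin n) : Fin n → ℤ :=
  fun i => if i = u ∧ e u = d then 1 else 0

lemma xv_abs {n : ℕ} (e : Fin n → ℕ) (d : ℕ) (u : Fin n) (i : Fin n) :
    xv e d u i = 0 ∨ xv e d u i = 1 := by
  unfold xv
  split_ifs <;> simp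

lemma xv_out {n : ℕ} (e : Fin n → ℕ) (d : ℕ) (u : Fin n) (i : Fin n) (hi : e i ≠ d) :
    xv e d u i = 0 := by
  unfold xv
  split_ifs with h
  · exact absurd (h.1 ▸ h.2) hi
  · rfl

lemma xv_self {n : ℕ} (e : Fin n → ℕ) (d : ℕ) (u : Fin n) (hu : e u = d) : xv e d u u = 1 := by
  unfold xv
  simp [hu]

lemma xv_ne {n : ℕ} (e : Fin n → ℕ) (d : ℕ) (u i : Fin n) (hu : i ≠ u) : xv e d u i = 0 := by
  unfold xv
  simp [hu]

lemma xv_sum {K : Type} [NormedField K] {n : ℕ} (e : Fin n → ℕ) (d : ℕ) (lam : Fin n → K)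
    (u : Fin n) : ∑ i, ((xv e d u i : ℤ) : K) * lam i = if e u = d then lam u else 0 := by
  unfold xv
  by_cases h : e u = d
  · simp [h]
  · simp [h]

/-- Genericity for two pairs. -/
lemma two {K : Type} [NormedField K] {n : ℕ} (e : Fin n → ℕ) (d : ℕ) (lam v : Fin n → K)
    (hF : FI {i | e i = d} lam) (hv : ∀ i, v i = if e i = d then lam i else 0)
    (i j k l : Fin n) (hij : i ≠ j) (hkl : k ≠ l) (hil : i ≠ l) (hik : i ≠ k) (hjl : j ≠ l)
    (h1 : e i = d ∨ e j = d) (h2 : e k = d ∨ e l = d) (h3 : j = k → e i = d ∨ e l = d) (m : ℤ) :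
    ‖v i - v j - m * (v k - v l)‖ = 1 := by
  have key := hF (fun s => xv e d i s - xv e d j s) (fun s => xv e d k s - xv e d l s) ?_ ?_ m
  · have e1 : ∑ s, (((xv e d i s - xv e d j s) - m * (xv e d k s - xv e d l s) : ℤ) : K) * lam s =
        v i - v j - m * (v k - v l) := by
      rw [hv i, hv j, hv k, hv l, ← xv_sum e d lam i, ← xv_sum e d lam j, ← xv_sum e d lam k,
        ← xv_sum e d lam l, ← Finset.sum_sub_distrib, ← Finset.sum_sub_distrib, Finset.mul_sum,
        ← Finset.sum_sub_distrib]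
      apply Finset.sum_congr rfl
      intro s _
      push_cast
      ring
    rw [← e1]
    exact key
  · intro s
    refine ⟨?_, ?_, ?_⟩
    · rcases xv_abs e d i s with h | h <;> rcases xv_abs e d j s with h' | h' <;>
        simp [h, h']
    · rcases xv_abs e d k s with h | h <;> rcases xv_abs e d l s with h' | h' <;>
        simp [h, h']
    · intro hs
      have hs' : e s ≠ d := hs
      simp [xv_out e d _ s hs']
  · by_cases hjk : j = k
    · subst hjk
      rcases h3 rfl with hi | hl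
      · -- `c i = 1`, `d i = 0`
        rcases h2 with hk | hl
        · refine ⟨i, j, ?_⟩
          have a1 : xv e d i i = 1 := xv_self e d i hi
          have a2 : xv e d j i = 0 := xv_ne e d j i hij
          have a3 : xv e d l i = 0 := xv_ne e d l i hil
          have a4 : xv e d j j = 1 := xv_self e d j hk
          have a5 : xv e d l j = 0 := xv_ne e d l j hjl
          simp only [a1, a2, a3, a4, a5]
          norm_num
        · refine ⟨i, l, ?_⟩
          have a1 : xv e d i i = 1 := xv_self e d i hi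
          have a2 : xv e d j i = 0 := xv_ne e d j i hij
          have a3 : xv e d l i = 0 := xv_ne e d l i hil
          have a4 : xv e d l l = 1 := xv_self e d l hl
          have a5 : xv e d j l = 0 := xv_ne e d j l hjl.symm
          simp only [a1, a2, a3, a4, a5]
          norm_num
      · -- `c l = 0`, `d l = -1`
        have b1 : xv e d l l = 1 := xv_self e d l hl
        have b2 : xv e d j l = 0 := xv_ne e d j l hjl.symm
        have b3 : xv e d i l = 0 := xv_ne e d i l hil.symm
        rcases h1 with hi | hj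
        · refine ⟨i, l, ?_⟩
          have a1 : xv e d i i = 1 := xv_self e d i hi
          have a2 : xv e d j i = 0 := xv_ne e d j i hij
          have a3 : xv e d l i = 0 := xv_ne e d l i hil
          simp only [a1, a2, a3, b1, b2, b3]
          norm_num
        · refine ⟨j, l, ?_⟩
          have a1 : xv e d j j = 1 := xv_self e d j hj
          have a2 : xv e d i j = 0 := xv_ne e d i j hij.symm
          simp only [a1, a2, b1, b2, b3]
          norm_num
    · -- disjoint supports
      have z1 : xv e d k i = 0 := xv_ne e d k i hik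
      have z2 : xv e d l i = 0 := xv_ne e d l i hil
      have z3 : xv e d k j = 0 := xv_ne e d k j hjk
      have z4 : xv e d l j = 0 := xv_ne e d l j hjl
      have z5 : xv e d j i = 0 := xv_ne e d j i hij
      have z6 : xv e d i j = 0 := xv_ne e d i j hij.symm
      have z7 : xv e d l k = 0 := xv_ne e d l k hkl
      have z8 : xv e d k l = 0 := xv_ne e d k l hkl.symm
      rcases h1 with hi | hj <;> rcases h2 with hk | hl
      · refine ⟨i, k, ?_⟩
        have a1 : xv e d i i = 1 := xv_self e d i hi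
        have a2 : xv e d k k = 1 := xv_self e d k hk
        simp only [z1, z2, z5, z7, a1, a2]
        norm_num
      · refine ⟨i, l, ?_⟩
        have a1 : xv e d i i = 1 := xv_self e d i hi
        have a2 : xv e d l l = 1 := xv_self e d l hl
        simp only [z1, z2, z5, z8, a1, a2]
        norm_num
      · refine ⟨j, k, ?_⟩
        have a1 : xv e d j j = 1 := xv_self e d j hj
        have a2 : xv e d k k = 1 := xv_self e d k hk
        simp only [z3, z4, z6, z7, a1, a2]
        norm_num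
      · refine ⟨j, l, ?_⟩
        have a1 : xv e d j j = 1 := xv_self e d j hj
        have a2 : xv e d l l = 1 := xv_self e d l hl
        simp only [z3, z4, z6, z8, a1, a2]
        norm_num

/-- Genericity for one pair. -/
lemma one {K : Type} [NormedField K] {n : ℕ} (e : Fin n → ℕ) (d : ℕ) (lam v : Fin n → K)
    (hF : FI {i | e i = d} lam) (hv : ∀ i, v i = if e i = d then lam i else 0)
    (hl : ∀ i, e i = d → ‖lam i‖ = 1) (i j : Fin n) (hij : i ≠ j) (h1 : e i = d ∨ e j = d) :
    ‖v i - v j‖ = 1 := by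
  by_cases hi : e i = d
  · by_cases hj : e j = d
    · have key := hF (xv e d i) (xv e d j) ?_ ?_ 1
      · have e1 : ∑ s, ((xv e d i s - 1 * xv e d j s : ℤ) : K) * lam s = v i - v j := by
          rw [hv i, hv j, ← xv_sum e d lam i, ← xv_sum e d lam j, ← Finset.sum_sub_distrib]
          apply Finset.sum_congr rfl
          intro s _
          push_cast
          ring
        rw [← e1]
        exact key
      · intro s
        refine ⟨?_, ?_, ?_⟩
        · rcases xv_abs e d i s with h | h <;> simp [h]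
        · rcases xv_abs e d j s with h | h <;> simp [h]
        · intro hs
          have hs' : e s ≠ d := hs
          simp [xv_out e d _ s hs']
      · refine ⟨i, j, ?_⟩
        rw [xv_self e d i hi, xv_self e d j hj, xv_ne e d i j hij.symm, xv_ne e d j i hij]
        norm_num
    · rw [hv i, hv j, if_pos hi, if_neg hj, sub_zero]
      exact hl i hi
  · have hj : e j = d := h1.resolve_left hi
    rw [hv i, hv j, if_neg hi, if_pos hj, zero_sub, norm_neg]
    exact hl j hj

lemma ro_norm {K : Type} [NormedField K] {ζ : K} (h : Ro ζ) : ‖ζ‖ = 1 := by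
  obtain ⟨M, hM, hζ⟩ := h
  have h1 : ‖ζ‖ ^ M = 1 := by rw [← norm_pow, hζ, norm_one]
  exact (pow_eq_one_iff_of_nonneg (norm_nonneg _) (by omega)).1 h1

/-- The near relation. -/
def Pn2 (p : ℕ) {K : Type} [NormedField K] (z : K) (ρ : ℝ) (a b : K) : Prop :=
  ∃ h ζ : K, Uu p h ∧ Ro ζ ∧ ‖h * (1 + a * z) - ζ * (1 + b * z)‖ ≤ ρ

lemma Pn2.symm {p : ℕ} (hp : p.Prime) {K : Type} [NormedField K] [CharZero K]
    [IsUltrametricDist K] (hK : Ext p K) (urr : URRStmt) {z : K} {ρ : ℝ} {a b : K}
    (h : Pn2 p z ρ a b) : Pn2 p z ρ b a := by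
  obtain ⟨h, ζ, hh, hζ, hn⟩ := h
  have hu := (urr p hp K hK).2.2.2.2 h hh
  have hζ1 := ro_norm hζ
  have h0 : h ≠ 0 := by
    intro h0
    have := hh.2
    rw [h0, norm_zero] at this
    exact zero_ne_one this
  have ζ0 : ζ ≠ 0 := by
    intro h0
    rw [h0, norm_zero] at hζ1
    exact zero_ne_one hζ1
  refine ⟨h⁻¹, ζ⁻¹, hu, ?_, ?_⟩
  · obtain ⟨M, hM, h1⟩ := hζ
    exact ⟨M, hM, by rw [inv_pow, h1, inv_one]⟩
  · have e1 : h⁻¹ * (1 + b * z) - ζ⁻¹ * (1 + a * z) =
        -(h⁻¹ * ζ⁻¹) * (h * (1 + a * z) - ζ * (1 + b * z)) := by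
      field_simp
      ring
    rw [e1, norm_mul, norm_neg, norm_mul, norm_inv, norm_inv, hh.2, hζ1]
    simpa using hn

/-- Common part of TTL and TTS. -/
lemma core (gtt : GttStmt) {p : ℕ} (hp : p.Prime) (h7 : 7 ≤ p) {K : Type} [NormedField K]
    [CharZero K] [IsUltrametricDist K] (hK : Ext p K) {n : ℕ} (e : Fin n → ℕ) (d : ℕ)
    (lam v : Fin n → K) (hF : FI {i | e i = d} lam) (hv : ∀ i, v i = if e i = d then lam i else 0)
    (hl : ∀ i, e i = d → ‖lam i‖ = 1) (hu : ∀ i, Ur p (v i))
    (i j k l : Fin n) (hij : i ≠ j) (hkl : k ≠ l) (hil : i ≠ l) (hik : i ≠ k) (hjl : j ≠ l)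
    (h1 : e i = d ∨ e j = d) (h2 : e k = d ∨ e l = d) (h3 : j = k → e i = d ∨ e l = d)
    (z : K) (ρ : ℝ) (hρ : ρ < th p ^ 3) (hz : th p ≤ ‖z‖) (hz1 : ‖z‖ < 1)
    (hP : Pn2 p z ρ (v i) (v j)) (hP' : Pn2 p z ρ (v k) (v l)) : False := by
  obtain ⟨h, ζ, hh, hζ, hn⟩ := hP
  obtain ⟨h', ζ', hh', hζ', hn'⟩ := hP'
  exact gtt p hp h7 K hK z (v i) (v j) (v k) (v l) h h' ζ ζ' ρ hρ hz hz1 (hu i) (hu j) (hu k)
    (hu l) (one e d lam v hF hv hl i j hij h1) (one e d lam v hF hv hl k l hkl h2) hh hh' hζ hζ'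
    hn hn' (two e d lam v hF hv i j k l hij hkl hil hik hjl h1 h2 h3)

end

end Pool.Agent.ZPK.H79
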